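import Pool.Agent.R482.ST.Vec

/-!
# Windows around starshaped sequences, with one dyadic level for a whole window
-/

set_option autoImplicit false

namespace Pool.Agent.V5helper64.SC

open Filter Topology Pool.Agent.R482.ST

/-- logarithms are smaller than powers -/
lemma log_count {ε : ℝ} (hε : 0 < ε) : ∃ C : ℝ, 0 ≤ C ∧ ∀ H : ℕ, 1 ≤ H →
    ((Nat.log 2 (8 * H) : ℕ) : ℝ) + 1 ≤ C * (H : ℝ) ^ ε := by
  refine ⟨2 * (1 / ε) + 7, by positivity, fun H hH => ?_⟩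
  have hH1 : (1 : ℝ) ≤ H := by exact_mod_cast hH
  have hp1 : (1 : ℝ) ≤ (H : ℝ) ^ ε := Real.one_le_rpow hH1 hε.le
  have h3 : ((Nat.log 2 (8 * H) : ℕ) : ℝ) ≤ 2 * Real.log (8 * H) := by
    have h4 : (2 : ℝ) ^ (Nat.log 2 (8 * H)) ≤ 8 * H := by
      exact_mod_cast Nat.pow_log_le_self 2 (x := 8 * H) (by omega)
    have h5 := Real.log_le_log (by positivity) h4
    rw [Real.log_pow] at h5
    have h6 := Real.log_two_gt_d9
    have h7 : (0 : ℝ) ≤ (Nat.log 2 (8 * H) : ℕ) := Nat.cast_nonneg _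
    nlinarith
  have h8 : Real.log (8 * H) ≤ 3 + Real.log H := by
    rw [Real.log_mul (by norm_num) (by linarith)]
    have : Real.log 8 = 3 * Real.log 2 := by
      rw [show (8 : ℝ) = 2 ^ 3 by norm_num, Real.log_pow]
      norm_num
    have h6 := Real.log_two_lt_d9
    linarith
  have h4 : Real.log H ≤ (H : ℝ) ^ ε / ε := Real.log_le_rpow_div (by linarith) hε
  have h5 : (H : ℝ) ^ ε / ε = 1 / ε * (H : ℝ) ^ ε := by ring
  rw [h5] at h4
  nlinarith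

/-- the values of a starshaped sequence of finite exponent of convergence tend to infinity -/
lemma tendsto_values {a τ : ℝ} {f : ℕ → ℝ → ℝ} (hf : Starshaped a f) (hτ : 0 ≤ τ) (hv : Conv a f τ)
    {x : ℝ} (hx : a < x) : Tendsto (fun k => f k x) atTop atTop := by
  have hlim := (hv x hx (τ + 1) (by linarith)).tendsto_atTop_zero
  have hpos : ∀ k, 0 < f k x := fun k => (hf.2 k x x hx le_rfl).1
  rw [tendsto_atTop]
  intro b
  obtain ⟨B, hB⟩ : ∃ B : ℝ, B = max b 1 := ⟨_, rfl⟩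
  have hB0 : 0 < B := by rw [hB]; positivity
  filter_upwards [hlim.eventually_lt_const (Real.rpow_pos_of_pos hB0 (-(τ + 1)))] with k hk
  have h1 : B < f k x := by
    by_contra hcon
    rw [not_lt] at hcon
    have := Real.rpow_le_rpow_of_nonpos (hpos k) hcon (by linarith : -(τ + 1) ≤ 0)
    linarith
  exact (le_max_left b 1).trans (by rw [← hB]; exact h1.le)

/-- **One level for a whole window.** `G i z` means that the vector `z` with `|z| ≤ 2 ^ i` is good for the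
level `i`; at most `C (2 ^ i) ^ s` vectors are not. -/
theorem windows_level {ι : Type} [Fintype ι] [Nonempty ι] (G : ℕ → (ι → ℤ) → Prop) {s : ℝ} (hs : 0 ≤ s)
    (hcount : ∃ C : ℝ, ∀ i : ℕ,
      (({z : ι → ℤ | (∀ x, |z x| ≤ 2 ^ i) ∧ ¬ G i z}.ncard : ℕ) : ℝ) ≤ C * ((2 : ℝ) ^ i) ^ s)
    {f : ℕ → ℝ → ℝ} {a τ θ : ℝ} (hf : Starshaped a f) (hτ : 0 ≤ τ) (hv : Conv a f τ) (hθ : θ < 1) :
    ∃ E : Set (ι → ℝ), dimH E ≤ ENNReal.ofReal ((s + τ) / (1 - θ)) ∧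
      ∀ u : ι → ℝ, a < ‖u‖ → u ∉ E → ∀ c : ℝ, ∃ k₀ : ℕ, ∀ k : ℕ, k₀ ≤ k →
        ∃ i : ℕ, (2 : ℝ) ^ i ≤ 3 * f k ‖u‖ ∧ f k ‖u‖ ≤ 2 ^ i ∧ ∀ z : ι → ℤ,
          (∀ x, |(z x : ℝ) - f k ‖u‖ / ‖u‖ * u x| ≤ c * (f k ‖u‖) ^ θ) → G i z := by
  classical
  have hfin : ∀ i : ℕ, {z : ι → ℤ | (∀ x, |z x| ≤ 2 ^ i) ∧ ¬ G i z}.Finite := by
    intro i
    have h : {z : ι → ℤ | ∀ x, z x ∈ Set.Icc (-(2 ^ i : ℤ)) (2 ^ i : ℤ)}.Finite :=
      Set.Finite.pi' fun _ => Set.finite_Icc _ _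
    exact h.subset fun z hz x => abs_le.1 (hz.1 x)
  obtain ⟨C, hC⟩ := hcount
  have hC0 : 0 ≤ |C| := abs_nonneg C
  obtain ⟨E, hE1, hE2⟩ := vec_prop (ι := ι)
    (fun z _ => ∃ i : ℕ, (∀ x, |z x| ≤ 2 ^ i) ∧ (∃ x, (2 : ℤ) ^ i ≤ 8 * |z x|) ∧ ¬ G i z)
    (fun z X Y _ h => h) hs
    (fun ε hε => by
      obtain ⟨K, hK0, hK⟩ := log_count hε
      refine ⟨|C| * 8 ^ s * K, fun H hH => ?_⟩
      have hH1 : (1 : ℝ) ≤ H := by exact_mod_cast hH
      set I : ℕ := Nat.log 2 (8 * H) with hI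
      have hsub : {z : ι → ℤ | (∀ x, |z x| ≤ (H : ℤ)) ∧ ∃ i : ℕ, (∀ x, |z x| ≤ 2 ^ i) ∧
          (∃ x, (2 : ℤ) ^ i ≤ 8 * |z x|) ∧ ¬ G i z} ⊆
          ⋃ i ∈ Finset.range (I + 1), {z : ι → ℤ | (∀ x, |z x| ≤ 2 ^ i) ∧ ¬ G i z} := by
        rintro z ⟨h1, i, h2, ⟨x, h3⟩, h4⟩
        refine Set.mem_biUnion (x := i) ?_ ⟨h2, h4⟩
        rw [Finset.coe_range, Set.mem_Iio, Nat.lt_succ_iff, hI]
        apply Nat.le_log_of_pow_le one_lt_two
        have h5 := h1 x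
        have h6 : (2 : ℤ) ^ i ≤ 8 * H := by linarith
        exact_mod_cast h6
      have h1 : (({z : ι → ℤ | (∀ x, |z x| ≤ (H : ℤ)) ∧ ∃ i : ℕ, (∀ x, |z x| ≤ 2 ^ i) ∧
          (∃ x, (2 : ℤ) ^ i ≤ 8 * |z x|) ∧ ¬ G i z}.ncard : ℕ) : ℝ) ≤
          ∑ i ∈ Finset.range (I + 1), (({z : ι → ℤ | (∀ x, |z x| ≤ 2 ^ i) ∧ ¬ G i z}.ncard : ℕ) : ℝ) := by
        rw [← Nat.cast_sum]
        refine Nat.cast_le.2 (le_trans (Set.ncard_le_ncard hsub ?_) ?_)
        · exact Set.Finite.biUnion (Finset.finite_toSet _) fun i _ => hfin i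
        · exact Finset.set_ncard_biUnion_le _ _
      have h2 : ∀ i ∈ Finset.range (I + 1),
          (({z : ι → ℤ | (∀ x, |z x| ≤ 2 ^ i) ∧ ¬ G i z}.ncard : ℕ) : ℝ) ≤ |C| * (8 * (H : ℝ)) ^ s := by
        intro i hi
        rw [Finset.mem_range, Nat.lt_succ_iff] at hi
        refine (hC i).trans (mul_le_mul (le_abs_self C) ?_ (by positivity) hC0)
        refine Real.rpow_le_rpow (by positivity) ?_ hs
        have h3 : (2 : ℕ) ^ i ≤ 8 * H :=
          (Nat.pow_le_pow_right (by norm_num) hi).trans (Nat.pow_log_le_self 2 (by omega))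
        exact_mod_cast h3
      refine h1.trans ((Finset.sum_le_sum h2).trans ?_)
      rw [Finset.sum_const, Finset.card_range, nsmul_eq_mul, Real.mul_rpow (by norm_num) (by linarith)]
      push_cast
      have h3 := hK H hH
      rw [← hI] at h3
      have h4 : (0 : ℝ) ≤ |C| * (8 ^ s * (H : ℝ) ^ s) := by positivity
      calc ((I : ℝ) + 1) * (|C| * (8 ^ s * (H : ℝ) ^ s)) ≤ (K * (H : ℝ) ^ ε) * (|C| * (8 ^ s * (H : ℝ) ^ s)) :=
            mul_le_mul_of_nonneg_right h3 h4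
        _ = |C| * 8 ^ s * K * (H : ℝ) ^ (s + ε) := by
            rw [Real.rpow_add (by linarith)]
            ring) f a τ θ hf hτ hv hθ
  refine ⟨E, hE1, fun u hu huE c => ?_⟩
  obtain ⟨k₁, hk₁⟩ := hE2 u hu huE c
  have hu0 : 0 < ‖u‖ := lt_of_le_of_lt hf.1 hu
  have hlim := tendsto_values hf hτ hv hu
  -- the windows are small compared with the length of the vectors
  have hsmall : ∀ᶠ k : ℕ in atTop, c * (f k ‖u‖) ^ θ ≤ f k ‖u‖ / 2 := by
    have h1 : Tendsto (fun k => (f k ‖u‖) ^ (1 - θ)) atTop atTop :=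
      (tendsto_rpow_atTop (by linarith)).comp hlim
    filter_upwards [h1.eventually_ge_atTop (2 * c), hlim.eventually_gt_atTop 0] with k hk hk0
    have h2 : f k ‖u‖ = (f k ‖u‖) ^ (1 - θ) * (f k ‖u‖) ^ θ := by
      rw [← Real.rpow_add hk0, sub_add_cancel, Real.rpow_one]
    have h3 : 0 < (f k ‖u‖) ^ θ := Real.rpow_pos_of_pos hk0 θ
    have h4 := mul_le_mul_of_nonneg_right hk h3.le
    rw [← h2] at h4
    linarith
  obtain ⟨k₂, hk₂⟩ := eventually_atTop.1 (hsmall.and (hlim.eventually_ge_atTop 1))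
  refine ⟨max k₁ k₂, fun k hk => ?_⟩
  obtain ⟨h1, h2⟩ := hk₂ k ((le_max_right _ _).trans hk)
  have h3 := hk₁ k ((le_max_left _ _).trans hk)
  obtain ⟨r, hr⟩ : ∃ r, r = f k ‖u‖ := ⟨_, rfl⟩
  rw [← hr] at h1 h2 h3 ⊢
  -- the level
  have hex : ∃ i : ℕ, 3 / 2 * r ≤ 2 ^ i := (pow_unbounded_of_one_lt _ one_lt_two).imp fun i hi => hi.le
  obtain ⟨i, hi⟩ : ∃ i, i = Nat.find hex := ⟨_, rfl⟩
  have hi1 : 3 / 2 * r ≤ 2 ^ i := by rw [hi]; exact Nat.find_spec hex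
  have hi2 : (2 : ℝ) ^ i ≤ 3 * r := by
    rcases Nat.eq_zero_or_pos i with h0 | h0
    · rw [h0, pow_zero]
      linarith
    · have h4 := Nat.find_min hex (m := i - 1) (by omega)
      rw [not_le] at h4
      have h5 : (2 : ℝ) ^ i = 2 * 2 ^ (i - 1) := by
        rw [← pow_succ']
        congr 1
        omega
      rw [h5]
      linarith
  refine ⟨i, hi2, by linarith, fun z hz => ?_⟩
  by_contra hG
  refine h3 z hz ⟨i, fun x => ?_, ?_, hG⟩
  · have h4 := hz x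
    have h5 : |r / ‖u‖ * u x| ≤ r := by
      rw [abs_mul, abs_of_pos (by positivity : 0 < r / ‖u‖)]
      have h6 : |u x| ≤ ‖u‖ := norm_le_pi_norm u x
      calc r / ‖u‖ * |u x| ≤ r / ‖u‖ * ‖u‖ := mul_le_mul_of_nonneg_left h6 (by positivity)
        _ = r := div_mul_cancel₀ _ hu0.ne'
    have h6 : |(z x : ℝ)| ≤ 2 ^ i := by
      have h7 : |(z x : ℝ)| ≤ |(z x : ℝ) - r / ‖u‖ * u x| + |r / ‖u‖ * u x| := by
        have := abs_add_le ((z x : ℝ) - r / ‖u‖ * u x) (r / ‖u‖ * u x)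
        rwa [sub_add_cancel] at this
      linarith
    exact_mod_cast h6
  · obtain ⟨x, hx⟩ : ∃ x, ‖u x‖ = ‖u‖ := by
      obtain ⟨x, -, hx⟩ := Finset.exists_mem_eq_sup' Finset.univ_nonempty (fun x => ‖u x‖)
      refine ⟨x, le_antisymm (norm_le_pi_norm u x) ?_⟩
      rw [pi_norm_le_iff_of_nonempty]
      intro y
      rw [← hx]
      exact Finset.le_sup' (fun x => ‖u x‖) (Finset.mem_univ y)
    refine ⟨x, ?_⟩
    have h4 := hz x
    have h5 : |r / ‖u‖ * u x| = r := by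
      rw [abs_mul, abs_of_pos (by positivity : 0 < r / ‖u‖)]
      have h6 : |u x| = ‖u‖ := hx
      rw [h6]
      exact div_mul_cancel₀ _ hu0.ne'
    have h6 : r / 2 ≤ |(z x : ℝ)| := by
      have h7 : |r / ‖u‖ * u x| ≤ |(z x : ℝ)| + |(z x : ℝ) - r / ‖u‖ * u x| := by
        have := abs_sub_abs_le_abs_sub (r / ‖u‖ * u x) (z x : ℝ)
        rw [abs_sub_comm] at this
        linarith
      linarith
    have h7 : (2 : ℝ) ^ i ≤ 8 * |(z x : ℝ)| := by linarith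
    exact_mod_cast h7

end Pool.Agent.V5helper64.SC
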